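import Pool.Agent.H13.Symm.Core

set_option autoImplicit false

open Cardinal

namespace Pool.Agent.Results.MP_fbee13_lc.AlephOne

/-- Every symmetric set of reals of cardinality at most `ℵ₁` lies in the sigma-algebra generated by
the additive subgroups; hence under CH every symmetric set of reals does. -/
theorem result :
    (∀ Z : Set ℝ, (∀ z ∈ Z, -z ∈ Z) → #Z ≤ ℵ₁ →
      @MeasurableSet ℝ
        (MeasurableSpace.generateFrom {S : Set ℝ | ∃ G : AddSubgroup ℝ, (G : Set ℝ) = S}) Z) ∧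
    ((𝔠 : Cardinal.{0}) = ℵ₁ → ∀ Z : Set ℝ, (∀ z ∈ Z, -z ∈ Z) →
      @MeasurableSet ℝ
        (MeasurableSpace.generateFrom {S : Set ℝ | ∃ G : AddSubgroup ℝ, (G : Set ℝ) = S}) Z) := by
  refine ⟨fun Z hZ hc => H13.Symm.main Z hZ hc, fun hCH Z hZ => H13.Symm.main Z hZ ?_⟩
  have h1 := Cardinal.mk_set_le Z
  rw [Cardinal.mk_real, hCH] at h1
  exact h1

end Pool.Agent.Results.MP_fbee13_lc.AlephOne
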