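import Pool.Agent.H13.Symm.Roth

set_option autoImplicit false

open Cardinal Ordinal

namespace Pool.Agent.Results.MP_fbee13_lc.Independence

/-- (1) All symmetric sets of reals lie in the sigma-algebra generated by the additive subgroups
iff all subsets of the plane lie in the sigma-algebra generated by rectangles; (2) CH implies that
they do; (3) if `κ ≤ 𝔠 < 2 ^ κ` and `cof (2 ^ κ) ≤ 𝔠` for some `κ`, then some symmetric set does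
not; (4) in particular this happens if `𝔠 = ℵ₂` and `2 ^ ℵ₁ = ℵ_{ω₂}`. -/
theorem result :
    ((∀ Z : Set ℝ, (∀ z ∈ Z, -z ∈ Z) →
      @MeasurableSet ℝ
        (MeasurableSpace.generateFrom {S : Set ℝ | ∃ G : AddSubgroup ℝ, (G : Set ℝ) = S}) Z) ↔
    (∀ Q : Set (ℝ × ℝ),
      @MeasurableSet (ℝ × ℝ)
        (MeasurableSpace.generateFrom {S : Set (ℝ × ℝ) | ∃ A C : Set ℝ, A ×ˢ C = S}) Q)) ∧
    ((𝔠 : Cardinal.{0}) = ℵ₁ → ∀ Z : Set ℝ, (∀ z ∈ Z, -z ∈ Z) →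
      @MeasurableSet ℝ
        (MeasurableSpace.generateFrom {S : Set ℝ | ∃ G : AddSubgroup ℝ, (G : Set ℝ) = S}) Z) ∧
    (∀ κ : Cardinal.{0}, κ ≤ 𝔠 → 𝔠 < (2 : Cardinal.{0}) ^ κ →
      ((2 : Cardinal.{0}) ^ κ).ord.cof ≤ 𝔠 → ∃ Z : Set ℝ, (∀ z ∈ Z, -z ∈ Z) ∧
      ¬ @MeasurableSet ℝ
        (MeasurableSpace.generateFrom {S : Set ℝ | ∃ G : AddSubgroup ℝ, (G : Set ℝ) = S}) Z) ∧
    ((𝔠 : Cardinal.{0}) = ℵ_ 2 → (2 : Cardinal.{0}) ^ (ℵ₁ : Cardinal.{0}) = ℵ_ (ω_ 2) →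
      ∃ Z : Set ℝ, (∀ z ∈ Z, -z ∈ Z) ∧
      ¬ @MeasurableSet ℝ
        (MeasurableSpace.generateFrom {S : Set ℝ | ∃ G : AddSubgroup ℝ, (G : Set ℝ) = S}) Z) := by
  have h3 : ∀ κ : Cardinal.{0}, κ ≤ 𝔠 → 𝔠 < (2 : Cardinal.{0}) ^ κ →
      ((2 : Cardinal.{0}) ^ κ).ord.cof ≤ 𝔠 → ∃ Z : Set ℝ, (∀ z ∈ Z, -z ∈ Z) ∧
      ¬ @MeasurableSet ℝ
        (MeasurableSpace.generateFrom {S : Set ℝ | ∃ G : AddSubgroup ℝ, (G : Set ℝ) = S}) Z := by
    intro κ h1 h2 h3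
    by_contra hcon
    push Not at hcon
    refine H13.Symm.rothberger κ.out ?_ ?_ ?_ (H13.Symm.equiv.1 hcon)
    · rw [Cardinal.mk_out]; exact h1
    · rw [Cardinal.mk_out]; exact h2
    · rw [Cardinal.mk_out]; exact h3
  refine ⟨H13.Symm.equiv, fun hCH Z hZ => H13.Symm.main Z hZ ?_, h3, ?_⟩
  · have h1 := Cardinal.mk_set_le Z
    rw [Cardinal.mk_real, hCH] at h1
    exact h1
  · intro hc hp
    refine h3 ℵ₁ Cardinal.aleph_one_le_continuum ?_ ?_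
    · rw [hp, hc, Cardinal.aleph_lt_aleph]
      exact (Ordinal.natCast_lt_omega0 2).trans_le (Ordinal.omega0_le_omega 2)
    · rw [hp, hc, Cardinal.ord_aleph, Ordinal.cof_omega (Cardinal.isSuccLimit_omega 2)]
      refine (Ordinal.cof_le_card _).trans ?_
      rw [Ordinal.card_omega]

end Pool.Agent.Results.MP_fbee13_lc.Independence
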