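import Pool.Agent.H13.Symm.Equiv

set_option autoImplicit false

open Cardinal

namespace Pool.Agent.Results.MP_fbee13_lc.Rectangles

/-- Every symmetric set of reals lies in the sigma-algebra generated by the additive subgroups
iff every subset of the plane lies in the sigma-algebra generated by all rectangles `A ×ˢ C`;
and both hold under CH. -/
theorem result :
    ((∀ Z : Set ℝ, (∀ z ∈ Z, -z ∈ Z) →
      @MeasurableSet ℝ
        (MeasurableSpace.generateFrom {S : Set ℝ | ∃ G : AddSubgroup ℝ, (G : Set ℝ) = S}) Z) ↔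
    (∀ Q : Set (ℝ × ℝ),
      @MeasurableSet (ℝ × ℝ)
        (MeasurableSpace.generateFrom {S : Set (ℝ × ℝ) | ∃ A C : Set ℝ, A ×ˢ C = S}) Q)) ∧
    ((𝔠 : Cardinal.{0}) = ℵ₁ → ∀ Z : Set ℝ, (∀ z ∈ Z, -z ∈ Z) →
      @MeasurableSet ℝ
        (MeasurableSpace.generateFrom {S : Set ℝ | ∃ G : AddSubgroup ℝ, (G : Set ℝ) = S}) Z) := by
  refine ⟨H13.Symm.equiv, fun hCH Z hZ => H13.Symm.main Z hZ ?_⟩
  have h1 := Cardinal.mk_set_le Z
  rw [Cardinal.mk_real, hCH] at h1
  exact h1

end Pool.Agent.Results.MP_fbee13_lc.Rectangles
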